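import Pool.Agent.Lib.MP_a55e6f_al.Uni.Interfaces

/-!
# MP_a55e6f_al: modules LA1 and LA (helper1)
-/

set_option autoImplicit false

universe u

open MvPolynomial

attribute [local instance 100] LieRing.ofAssociativeRing

namespace Pool.Agent.A55u.H1

variable {k M : Type u} [Field k]

/-! ### weights of monomials -/

/-- the `z`-weight of a monomial -/
def zw (z : M → ℕ) (m : M →₀ ℕ) : ℕ := m.sum fun w i => i * z w

theorem zw_eq (z : M → ℕ) (m : M →₀ ℕ) : zw z m = Finsupp.weight z m := by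
  simp [zw, Finsupp.weight_apply]

theorem kap_eq (a : M → ℚ) (m : M →₀ ℕ) : kap a m = Finsupp.weight (fun w => 1 - a w) m := by
  simp [kap, Finsupp.weight_apply]

theorem kap_add (a : M → ℚ) (m m' : M →₀ ℕ) : kap a (m + m') = kap a m + kap a m' := by
  simp [kap_eq]

theorem kap_single (a : M → ℚ) (w : M) : kap a (Finsupp.single w 1) = 1 - a w := by
  simp [kap_eq, Finsupp.weight_apply]

theorem kap_sub (a : M → ℚ) (m : M →₀ ℕ) (w : M) (h : m w ≠ 0) :
    kap a (m - Finsupp.single w 1) = kap a m - (1 - a w) := by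
  have h1 : m - Finsupp.single w 1 + Finsupp.single w 1 = m :=
    tsub_add_cancel_of_le (by simpa using Nat.one_le_iff_ne_zero.2 h)
  have h2 := kap_add a (m - Finsupp.single w 1) (Finsupp.single w 1)
  rw [h1, kap_single] at h2
  linarith

theorem kap_smul (s : ℚ) (z : M → ℕ) (m : M →₀ ℕ) :
    kap (fun w => s * (z w : ℚ)) m = (m.degree : ℚ) - s * (zw z m : ℚ) := by
  have hd : m.degree = ∑ i ∈ m.support, m i := rfl
  rw [kap, zw, hd]
  simp only [Finsupp.sum, Nat.cast_sum, Nat.cast_mul, Finset.mul_sum]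
  rw [← Finset.sum_sub_distrib]
  refine Finset.sum_congr rfl fun w _ => ?_
  ring

/-! ### monomials of derivations and of `Pi` -/

theorem mkDer_supp (h : M → MvPolynomial M k) (f : MvPolynomial M k) (m : M →₀ ℕ)
    (hm : (mkDerivation k h f).coeff m ≠ 0) :
    ∃ (m1 : M →₀ ℕ) (w : M) (m2 : M →₀ ℕ), f.coeff m1 ≠ 0 ∧ m1 w ≠ 0 ∧ (h w).coeff m2 ≠ 0 ∧
      m = m1 - Finsupp.single w 1 + m2 := by
  classical
  have e1 : mkDerivation k h f = ∑ m1 ∈ f.support, mkDerivation k h (monomial m1 (f.coeff m1)) := by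
    conv_lhs => rw [f.as_sum]
    rw [map_sum]
  rw [e1, coeff_sum] at hm
  obtain ⟨m1, hm1, hne⟩ := Finset.exists_ne_zero_of_sum_ne_zero hm
  rw [mkDerivation_monomial, coeff_smul, Finsupp.sum, coeff_sum] at hne
  have hne2 := right_ne_zero_of_mul (by simpa using hne : f.coeff m1 * _ ≠ 0)
  obtain ⟨w, hw, hne3⟩ := Finset.exists_ne_zero_of_sum_ne_zero hne2
  rw [coeff_monomial_mul'] at hne3
  split_ifs at hne3 with hle
  · refine ⟨m1, w, m - (m1 - Finsupp.single w 1), by simpa using hm1, by simpa using hw,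
      right_ne_zero_of_mul hne3, ?_⟩
    rw [add_tsub_cancel_of_le hle]
  · exact absurd rfl hne3

theorem Pi_supp [Monoid M] (f g : MvPolynomial M k) (m : M →₀ ℕ) (hm : (Pi f g).coeff m ≠ 0) :
    ∃ (m1 m2 : M →₀ ℕ) (w w' : M), f.coeff m1 ≠ 0 ∧ g.coeff m2 ≠ 0 ∧ m1 w ≠ 0 ∧ m2 w' ≠ 0 ∧
      m = m2 - Finsupp.single w' 1 + (m1 - Finsupp.single w 1 + Finsupp.single (w * w') 1) := by
  obtain ⟨m2, w', m3, h1, h2, h3, rfl⟩ := mkDer_supp _ _ _ hm
  obtain ⟨m1, w, m4, h4, h5, h6, rfl⟩ := mkDer_supp _ _ _ h3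
  have h7 : m4 = Finsupp.single (w * w') 1 := by
    classical
    rw [coeff_X] at h6
    by_contra hne
    exact h6 (if_neg (Ne.symm hne))
  subst h7
  exact ⟨m1, m2, w, w', h4, h1, h5, h2, rfl⟩

theorem Pi_kap [Monoid M] (a : M → ℚ) (ha : IsAdd a) (f g : MvPolynomial M k) (m : M →₀ ℕ)
    (hm : (Pi f g).coeff m ≠ 0) :
    ∃ (m1 m2 : M →₀ ℕ), f.coeff m1 ≠ 0 ∧ g.coeff m2 ≠ 0 ∧ kap a m = kap a m1 + kap a m2 - 1 := by
  obtain ⟨m1, m2, w, w', h1, h2, h3, h4, rfl⟩ := Pi_supp f g m hm
  refine ⟨m1, m2, h1, h2, ?_⟩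
  rw [kap_add, kap_add, kap_sub a m2 w' h4, kap_sub a m1 w h3, kap_single, ha.map_mul]
  ring

/-! ### the part of weight 1 -/

/-- the part of weight `1` -/
noncomputable def pt (k : Type u) [Field k] (a : M → ℚ) : MvPolynomial M k →ₗ[k] MvPolynomial M k :=
  weightedHomogeneousComponent (fun w => 1 - a w) 1

theorem pt_coeff (a : M → ℚ) (f : MvPolynomial M k) (m : M →₀ ℕ) :
    (pt k a f).coeff m = if kap a m = 1 then f.coeff m else 0 := by
  rw [pt, coeff_weightedHomogeneousComponent, kap_eq]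

theorem Pi_add_left [Monoid M] (f f' g : MvPolynomial M k) : Pi (f + f') g = Pi f g + Pi f' g := by
  simp only [Pi, map_add]
  have : (fun w' : M => mkDerivation k (fun w => (X (w * w') : MvPolynomial M k)) f
      + mkDerivation k (fun w => (X (w * w') : MvPolynomial M k)) f')
      = (fun w' => mkDerivation k (fun w => (X (w * w') : MvPolynomial M k)) f)
      + (fun w' => mkDerivation k (fun w => (X (w * w') : MvPolynomial M k)) f') := rfl
  rw [this]
  have h2 := (mkDerivationEquiv (σ := M) (A := MvPolynomial M k) k).map_add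
    (fun w' => mkDerivation k (fun w => (X (w * w') : MvPolynomial M k)) f)
    (fun w' => mkDerivation k (fun w => (X (w * w') : MvPolynomial M k)) f')
  have h3 := congrArg (fun D : Derivation k (MvPolynomial M k) (MvPolynomial M k) => D g) h2
  exact h3

theorem Pi_add_right [Monoid M] (f g g' : MvPolynomial M k) : Pi f (g + g') = Pi f g + Pi f g' := by
  simp only [Pi, map_add]

theorem pt_Pi [Monoid M] (a : M → ℚ) (ha : IsAdd a) (f g : MvPolynomial M k)
    (hf : f ∈ Fil k a 1) (hg : g ∈ Fil k a 1) :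
    pt k a (Pi f g) = Pi (pt k a f) (pt k a g) := by
  rw [mem_Fil] at hf hg
  set f1 := pt k a f with hf1
  set g1 := pt k a g with hg1
  have ef : f = f1 + (f - f1) := by ring
  have eg : g = g1 + (g - g1) := by ring
  have hf1c : ∀ m, f1.coeff m ≠ 0 → kap a m = 1 := by
    intro m hm
    by_contra hne
    exact hm (by rw [hf1, pt_coeff, if_neg hne])
  have hg1c : ∀ m, g1.coeff m ≠ 0 → kap a m = 1 := by
    intro m hm
    by_contra hne
    exact hm (by rw [hg1, pt_coeff, if_neg hne])
  have hf2c : ∀ m, (f - f1).coeff m ≠ 0 → kap a m < 1 := by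
    intro m hm
    by_cases hk : kap a m = 1
    · exact absurd (by rw [coeff_sub, hf1, pt_coeff, if_pos hk, sub_self]) hm
    · rw [coeff_sub, hf1, pt_coeff, if_neg hk, sub_zero] at hm
      exact lt_of_le_of_ne (hf m hm) hk
  have hg2c : ∀ m, (g - g1).coeff m ≠ 0 → kap a m < 1 := by
    intro m hm
    by_cases hk : kap a m = 1
    · exact absurd (by rw [coeff_sub, hg1, pt_coeff, if_pos hk, sub_self]) hm
    · rw [coeff_sub, hg1, pt_coeff, if_neg hk, sub_zero] at hm
      exact lt_of_le_of_ne (hg m hm) hk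
  have h0 : ∀ q : MvPolynomial M k, (∀ m, q.coeff m ≠ 0 → kap a m < 1) → pt k a q = 0 := by
    intro q hq
    ext m
    rw [pt_coeff, coeff_zero]
    split_ifs with hk
    · by_contra hne
      exact absurd hk (ne_of_lt (hq m hne))
    · rfl
  have e : Pi f g = Pi f1 g1 + Pi f1 (g - g1) + Pi (f - f1) g := by
    conv_lhs => rw [ef, Pi_add_left]
    conv_lhs => enter [1]; rw [eg, Pi_add_right]
  rw [e, map_add, map_add]
  have hA : pt k a (Pi f1 (g - g1)) = 0 := by
    refine h0 _ fun m hm => ?_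
    obtain ⟨m1, m2, h1, h2, h3⟩ := Pi_kap a ha _ _ m hm
    have := hf1c m1 h1
    have := hg2c m2 h2
    linarith
  have hB : pt k a (Pi (f - f1) g) = 0 := by
    refine h0 _ fun m hm => ?_
    obtain ⟨m1, m2, h1, h2, h3⟩ := Pi_kap a ha _ _ m hm
    have := hf2c m1 h1
    have := hg m2 h2
    linarith
  rw [hA, hB, add_zero, add_zero]
  ext m
  rw [pt_coeff]
  split_ifs with hk
  · rfl
  · by_contra hne
    obtain ⟨m1, m2, h1, h2, h3⟩ := Pi_kap a ha _ _ m (Ne.symm hne)
    have := hf1c m1 h1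
    have := hg1c m2 h2
    apply hk
    linarith

theorem Pi_mem [Monoid M] (a : M → ℚ) (ha : IsAdd a) (f g : MvPolynomial M k)
    (hf : f ∈ Fil k a 1) (hg : g ∈ Fil k a 1) : Pi f g ∈ Fil k a 1 := by
  rw [mem_Fil] at *
  intro m hm
  obtain ⟨m1, m2, h1, h2, h3⟩ := Pi_kap a ha _ _ m hm
  have := hf m1 h1
  have := hg m2 h2
  linarith

theorem Fil_mono (a : M → ℚ) {r r' : ℚ} (h : r ≤ r') {f : MvPolynomial M k}
    (hf : f ∈ Fil k a r) : f ∈ Fil k a r' := by
  rw [mem_Fil] at *
  exact fun m hm => (hf m hm).trans h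

theorem pt_eq_zero (a : M → ℚ) {r : ℚ} (h : r < 1) {f : MvPolynomial M k}
    (hf : f ∈ Fil k a r) : pt k a f = 0 := by
  rw [mem_Fil] at hf
  ext m
  rw [pt_coeff, coeff_zero]
  split_ifs with hk
  · by_contra hne
    have := hf m hne
    linarith
  · rfl

/-! ### `iota` and homogeneous elements -/

theorem iota_coeff (b : MonoidAlgebra k M) (m : M →₀ ℕ) (hm : (iota b).coeff m ≠ 0) :
    ∃ w, m = Finsupp.single w 1 ∧ b.coeff w ≠ 0 := by
  classical
  have e : iota b = ∑ w ∈ b.coeff.support, b.coeff w • (X w : MvPolynomial M k) := rfl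
  rw [e, coeff_sum] at hm
  obtain ⟨w, hw, hne⟩ := Finset.exists_ne_zero_of_sum_ne_zero hm
  rw [coeff_smul, coeff_X] at hne
  refine ⟨w, ?_, by simpa using hw⟩
  by_contra h
  exact hne (by rw [if_neg (Ne.symm h), smul_zero])

theorem comp_coeff (z : M → ℕ) (n : ℕ) (b : MonoidAlgebra k M) (w : M) :
    (comp z n b).coeff w = if z w = n then b.coeff w else 0 := by
  by_cases h : z w = n <;> simp [comp, proj_coeff, h]

theorem hom_comp (z : M → ℕ) (n : ℕ) (b : MonoidAlgebra k M) : Hom z n (comp z n b) := by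
  intro w hw
  by_contra h
  exact hw (by rw [comp_coeff, if_neg h])

theorem zw_single (z : M → ℕ) (w : M) : zw z (Finsupp.single w 1) = z w := by
  simp [zw]

/-- the `z`-degree `zw z m` part of `b` determines the coefficient of `m` in `E b` -/
theorem E_coeff [Monoid M] {z : M → ℕ} (hz : IsAdd z) {G : LieSubalgebra k (MonoidAlgebra k M)}
    (hG : Graded z G) {E : MonoidAlgebra k M →ₗ[k] MvPolynomial M k} (hE : IsRep G E)
    (b : MonoidAlgebra k M) (m : M →₀ ℕ) :
    (E b).coeff m = (E (comp z (zw z m) b)).coeff m := by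
  classical
  have hb : ∀ b' : MonoidAlgebra k M, b' = ∑ w ∈ b'.coeff.support, MonoidAlgebra.single w (b'.coeff w) := by
    intro b'
    ext w
    rw [MonoidAlgebra.coeff_sum, Finsupp.finsetSum_apply]
    simp only [MonoidAlgebra.coeff_single, Finsupp.single_apply]
    rw [Finset.sum_ite_eq']
    split_ifs with h
    · rfl
    · simpa using h
  have key : ∀ (w : M) (c : k), (E (MonoidAlgebra.single w c)).coeff m
      = (E (comp z (zw z m) (MonoidAlgebra.single w c))).coeff m := by
    intro w c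
    by_cases h : z w = zw z m
    · congr 2
      ext v
      rw [comp_coeff]
      simp only [MonoidAlgebra.coeff_single, Finsupp.single_apply]
      by_cases hv : w = v
      · subst hv; simp [h]
      · simp [hv]
    · have h1 : comp z (zw z m) (MonoidAlgebra.single w c) = 0 := by
        ext v
        rw [comp_coeff]
        simp only [MonoidAlgebra.coeff_single, Finsupp.single_apply]
        by_cases hv : w = v
        · subst hv; simp [h]
        · simp [hv]
      rw [h1, map_zero, coeff_zero]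
      by_contra hne
      refine h (hE.hom z hz hG (z w) (MonoidAlgebra.single w c) ?_ m hne).symm
      intro v hv
      simp only [MonoidAlgebra.coeff_single, Finsupp.single_apply] at hv
      by_cases hv' : w = v
      · rw [hv']
      · simp [hv'] at hv
  have e := hb b
  conv_lhs => rw [e]
  conv_rhs => rw [e]
  simp only [map_sum, coeff_sum]
  exact Finset.sum_congr rfl fun w _ => key w _

/-! ### LA1 -/

theorem la1 (hR : RepStatement.{u}) (hT : TopStatement.{u}) : LA1Statement.{u} := by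
  classical
  intro k M _ _ z hz G hEnv hG hG1 C _ _ Θ j T F hF hTF hc hjG hTj hne
  obtain ⟨E, hE⟩ := hR k M G hEnv
  -- monomials of degree 0
  have hj0 : ∀ c, Hom z 0 (j c) := by
    intro c
    rw [← hc c]
    exact hom_comp z 0 _
  have hEj : ∀ c, E (j c) = iota (j c) := fun c => hE.mem _ (hjG c)
  have hz0 : ∀ c m, zw z m = 0 → (E (Θ c)).coeff m = (iota (j c)).coeff m := by
    intro c m hm
    rw [E_coeff hz hG hE, hm, hc c, hEj]
  have hjm : ∀ c m, (iota (j c)).coeff m ≠ 0 → zw z m = 0 ∧ m.degree = 1 := by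
    intro c m hm
    obtain ⟨w, rfl, hw⟩ := iota_coeff _ _ hm
    exact ⟨by rw [zw_single]; exact hj0 c w hw, by simp⟩
  -- the set of monomials with positive z weight
  set P : Finset (M →₀ ℕ) :=
    (hF.toFinset.biUnion fun c => (E (Θ c)).support).filter fun m => 1 ≤ zw z m with hP
  have hPmem : ∀ m, m ∈ P ↔ (∃ c ∈ F, (E (Θ c)).coeff m ≠ 0) ∧ 1 ≤ zw z m := by
    intro m
    simp [hP]
  -- some linear monomial
  have hlin : ∀ c, Θ c ≠ j c → ∃ w, 1 ≤ z w ∧ (E (Θ c)).coeff (Finsupp.single w 1) ≠ 0 := by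
    intro c hcne
    have : ∃ w, (Θ c).coeff w ≠ (j c).coeff w := by
      by_contra h
      push Not at h
      exact hcne (by ext w; exact h w)
    obtain ⟨w, hw⟩ := this
    have hzw : z w ≠ 0 := by
      intro h0
      apply hw
      have h1 := congrArg (fun b : MonoidAlgebra k M => b.coeff w) (hc c)
      simp only [comp_coeff, if_pos h0] at h1
      exact h1
    have hj : (j c).coeff w = 0 := by
      by_contra h
      exact hzw (hj0 c w h)
    rw [hj] at hw
    refine ⟨w, Nat.one_le_iff_ne_zero.2 hzw, ?_⟩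
    rw [hE.lin]
    · exact hw
    · rintro rfl
      exact hzw hz.map_one
  have hex : ∃ c ∈ F, Θ c ≠ j c := by
    by_contra h
    push Not at h
    apply hne
    have hall : ∀ c ∈ LieSubalgebra.lieSpan k C (T ∪ F), Θ c = j c := by
      intro c hcm
      induction hcm using LieSubalgebra.lieSpan_induction with
      | mem x hx =>
        rcases hx with hx | hx
        · exact hTj x hx
        · exact h x hx
      | zero => simp
      | add x y _ _ hx hy => rw [map_add, map_add, hx, hy]
      | smul a x _ hx => rw [map_smul, map_smul, hx]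
      | lie x y _ _ hx hy => rw [LieHom.map_lie, LieHom.map_lie, hx, hy]
    apply LieHom.ext
    intro c
    exact hall c (by rw [hTF]; trivial)
  obtain ⟨c0, hc0F, hc0⟩ := hex
  obtain ⟨w0, hw0, hw0c⟩ := hlin c0 hc0
  have hPne : P.Nonempty := ⟨Finsupp.single w0 1, by
    rw [hPmem]
    exact ⟨⟨c0, hc0F, hw0c⟩, by rw [zw_single]; exact hw0⟩⟩
  -- the slope
  obtain ⟨m0, hm0P, hm0⟩ := P.exists_max_image
    (fun m => (((m.degree : ℚ) - 1) / (zw z m : ℚ))) hPne
  set s : ℚ := ((m0.degree : ℚ) - 1) / (zw z m0 : ℚ) with hs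
  set a : M → ℚ := fun w => s * (z w : ℚ) with ha
  have haA : IsAdd a := ⟨by simp [ha, hz.map_one], by
    intro x y
    simp only [ha, hz.map_mul]
    push_cast
    ring⟩
  have hkap : ∀ m, kap a m = (m.degree : ℚ) - s * (zw z m : ℚ) := fun m => kap_smul s z m
  have hjF : ∀ c, iota (j c) ∈ Fil k a 1 := by
    intro c
    rw [mem_Fil]
    intro m hm
    obtain ⟨h1, h2⟩ := hjm c m hm
    rw [hkap, h1, h2]
    simp
  have hFF : ∀ c ∈ F, E (Θ c) ∈ Fil k a 1 := by
    intro c hcF
    rw [mem_Fil]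
    intro m hm
    by_cases h0 : zw z m = 0
    · rw [hz0 c m h0] at hm
      obtain ⟨h1, h2⟩ := hjm c m hm
      rw [hkap, h1, h2]
      simp
    · have h1 : m ∈ P := (hPmem m).2 ⟨⟨c, hcF, hm⟩, Nat.one_le_iff_ne_zero.2 h0⟩
      have h2 := hm0 m h1
      have h3 : (0 : ℚ) < (zw z m : ℚ) := by exact_mod_cast Nat.pos_of_ne_zero h0
      rw [div_le_iff₀ h3] at h2
      rw [hkap]
      linarith
  have hbr : ∀ c d, E (Θ c) ∈ Fil k a 1 → E (Θ d) ∈ Fil k a 1 →
      E (Θ ⁅c, d⁆) - (Pi (E (Θ c)) (E (Θ d)) - Pi (E (Θ d)) (E (Θ c))) ∈ Fil k a 0 := by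
    intro c d h1 h2
    have h3 := hE.mul a haA 1 1 (Θ c) (Θ d) h1 h2
    have h4 := hE.mul a haA 1 1 (Θ d) (Θ c) h2 h1
    have h5 := (Fil k a (1 + 1 - 2)).sub_mem h3 h4
    have e0 : (1 + 1 - 2 : ℚ) = 0 := by norm_num
    rw [e0] at h5
    have e1 : Θ ⁅c, d⁆ = Θ c * Θ d - Θ d * Θ c := by
      rw [LieHom.map_lie, LieRing.of_associative_ring_bracket]
    rw [e1, map_sub]
    convert h5 using 1
    ring
  have hall : ∀ c, E (Θ c) ∈ Fil k a 1 := by
    have hall' : ∀ c ∈ LieSubalgebra.lieSpan k C (T ∪ F), E (Θ c) ∈ Fil k a 1 := by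
      intro c hcm
      induction hcm using LieSubalgebra.lieSpan_induction with
      | mem x hx =>
        rcases hx with hx | hx
        · rw [hTj x hx, hEj]
          exact hjF x
        · exact hFF x hx
      | zero => simp
      | add x y _ _ hx hy =>
        rw [map_add, map_add]
        exact (Fil k a 1).add_mem hx hy
      | smul r x _ hx =>
        rw [map_smul, map_smul]
        exact (Fil k a 1).smul_mem r hx
      | lie x y _ _ hx hy =>
        have h1 := Fil_mono a (by norm_num : (0 : ℚ) ≤ 1) (hbr x y hx hy)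
        have h2 := (Fil k a 1).sub_mem (Pi_mem a haA _ _ hx hy) (Pi_mem a haA _ _ hy hx)
        have h3 := (Fil k a 1).add_mem h1 h2
        convert h3 using 1
        ring
    intro c
    exact hall' c (by rw [hTF]; trivial)
  -- the map χ
  have hχ0 : ∀ c m, (pt k a (E (Θ c))).coeff m = if kap a m = 1 then (E (Θ c)).coeff m else 0 :=
    fun c m => pt_coeff a _ m
  refine ⟨(pt k a).comp (E.comp (Θ : C →ₗ[k] MonoidAlgebra k M)), ?_, ?_, ?_, ?_, ?_⟩
  · intro c d
    change pt k a (E (Θ ⁅c, d⁆)) = Pi (pt k a (E (Θ c))) (pt k a (E (Θ d)))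
      - Pi (pt k a (E (Θ d))) (pt k a (E (Θ c)))
    rw [← pt_Pi a haA _ _ (hall c) (hall d), ← pt_Pi a haA _ _ (hall d) (hall c), ← map_sub,
      ← sub_eq_zero, ← map_sub]
    exact pt_eq_zero a (by norm_num) (hbr c d (hall c) (hall d))
  · intro c
    change pt k a (E (Θ c)) ∈ _
    rw [← sum_weightedHomogeneousComponent z (pt k a (E (Θ c)))]
    refine finsum_induction (fun f => f ∈ Algebra.adjoin k (iota '' (G : Set (MonoidAlgebra k M))))
      (Subalgebra.zero_mem _) (fun _ _ h1 h2 => Subalgebra.add_mem _ h1 h2) ?_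
    intro d
    set g := E (comp z d (Θ c)) with hg
    have hgz : ∀ m, g.coeff m ≠ 0 → zw z m = d := fun m hm =>
      hE.hom z hz hG d _ (hom_comp z d _) m hm
    have hge : ∀ m, zw z m = d → (E (Θ c)).coeff m = g.coeff m := by
      intro m hm
      rw [E_coeff hz hG hE, hm]
    by_cases hn : ∃ n : ℕ, (n : ℚ) = 1 + s * (d : ℚ)
    · obtain ⟨n, hn⟩ := hn
      have h1 : weightedHomogeneousComponent z d (pt k a (E (Θ c))) = homogeneousComponent n g := by
        ext m
        rw [coeff_weightedHomogeneousComponent, coeff_homogeneousComponent, hχ0, ← zw_eq, hkap]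
        by_cases hm : zw z m = d
        · rw [if_pos hm, hge m hm, hm]
          by_cases h2 : m.degree = n
          · rw [if_pos h2, if_pos]
            rw [h2, hn]; ring
          · rw [if_neg h2, if_neg]
            intro h3
            apply h2
            have : (m.degree : ℚ) = (n : ℚ) := by rw [hn]; linarith
            exact_mod_cast this
        · rw [if_neg hm]
          have : g.coeff m = 0 := by
            by_contra h
            exact hm (hgz m h)
          rw [this]
          split_ifs <;> rfl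
      rw [h1]
      refine hT k M G hEnv E hE n (comp z d (Θ c)) ?_
      rw [totalDegree]
      refine Finset.sup_le fun m hm => ?_
      have hm' : g.coeff m ≠ 0 := by simpa [hg] using hm
      have h2 := hgz m hm'
      have h3 : (E (Θ c)).coeff m ≠ 0 := by rw [hge m h2]; exact hm'
      have h4 := (mem_Fil.1 (hall c)) m h3
      rw [hkap, h2] at h4
      have h5 : (m.degree : ℚ) ≤ (n : ℚ) := by rw [hn]; linarith
      have h6 : m.degree ≤ n := by exact_mod_cast h5
      exact h6
    · have h1 : weightedHomogeneousComponent z d (pt k a (E (Θ c))) = 0 := by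
        ext m
        rw [coeff_weightedHomogeneousComponent, hχ0, ← zw_eq, hkap, coeff_zero]
        by_cases hm : zw z m = d
        · rw [if_pos hm, if_neg]
          intro h3
          apply hn
          refine ⟨m.degree, ?_⟩
          rw [hm] at h3
          linarith
        · rw [if_neg hm]
      rw [h1]
      exact Subalgebra.zero_mem _
  · intro c m hm
    change (pt k a (E (Θ c))).coeff m = _
    have hm' : zw z m = 0 := hm
    rw [hχ0, hz0 c m hm', hkap, hm']
    split_ifs with h
    · rfl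
    · by_contra hne'
      obtain ⟨h1, h2⟩ := hjm c m (Ne.symm hne')
      apply h
      rw [h2]
      simp
  · intro c hcj
    change pt k a (E (Θ c)) = _
    rw [hcj, hEj]
    ext m
    rw [pt_coeff, hkap]
    split_ifs with h
    · rfl
    · by_contra hne'
      obtain ⟨h1, h2⟩ := hjm c m (Ne.symm hne')
      apply h
      rw [h1, h2]
      simp
  · obtain ⟨⟨c1, hc1F, hc1⟩, hz1⟩ := (hPmem m0).1 hm0P
    refine ⟨c1, hc1F, ?_⟩
    intro heq
    have h1 := congrArg (fun f : MvPolynomial M k => f.coeff m0) heq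
    change (pt k a (E (Θ c1))).coeff m0 = (iota (j c1)).coeff m0 at h1
    have h2 : kap a m0 = 1 := by
      rw [hkap, hs, div_mul_cancel₀]
      · ring
      · have : zw z m0 ≠ 0 := Nat.one_le_iff_ne_zero.1 hz1
        exact_mod_cast this
    rw [hχ0, if_pos h2] at h1
    rw [h1] at hc1
    have := (hjm c1 m0 hc1).1
    omega

theorem la (h1 : LA1Statement.{u}) (h2 : LA2Statement.{u}) : LAStatement.{u} := by
  intro k M _ _ _ z y hz hy hzy G hEnv hG hG1 C _ _ Θ j T F hF hTF hc hjG hTj hne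
  obtain ⟨χ, ha, hb, hcc, hd, he⟩ := h1 k M z hz G hEnv hG hG1 C Θ j T F hF hTF hc hjG hTj hne
  obtain ⟨ψ, hψ1, hψ2, hψ3, hψ4⟩ := h2 k M z y hz hy hzy G hG hG1 C j T F hF hTF
    (fun c => by rw [← hc c]; exact hom_comp z 0 _) hjG χ ha hb hcc
    (fun t ht => hd t (hTj t ht)) he
  exact ⟨ψ, hψ1, hψ2, fun c hcj => hψ3 c (hd c hcj), hψ4⟩

end Pool.Agent.A55u.H1
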